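import Pool.Agent.U124.HC.Final

/-!
# Crystalline homological equivalence and numerical equivalence on abelian varieties over finite fields

Over an algebraic closure of the field with `p` elements we prove that **crystalline homological
equivalence and numerical equivalence coincide, in all codimensions**, on all abelian varieties in the
families described below. On these varieties there are in general exotic classes (Weil classes, in
arbitrarily high codimensions) which are not known to be algebraic. For the `l`-adic cohomology with
`l ≠ p` a theorem of Clozel says that the two equivalence relations coincide for many `l`, those for
which a decomposition group at `l` contains the complex conjugation; nothing of this kind was known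
for crystalline cohomology, where the decomposition group at `p` contains the complex conjugation
only if the abelian variety is supersingular.

**The model** is the one of the starting files (`Pool.Agent.W495.TA`, `Pool.Agent.TH117`). By Honda
and Tate an abelian variety is, up to isogeny and finite extensions of the ground field, a reduction
of an abelian variety `X` of CM type: `Z : RedAV p ν` has finitely many factors, indexed by `Z.X.I`,
the factor `i` has a CM field `E i` and a Weil number `Z.π i ∈ E i` (the Frobenius endomorphism over
the field with `q = p ^ a` elements, `a = Z.a`) which satisfies the formula of Shimura and Taniyama.
Here `ν` is an isomorphism of the algebraic closure `Ω = PadicAlgCl p` of `ℚ_p` with `ℂ`; the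
embeddings of `E i` in `ℂ` define places above `p` (`SamePlace`). The cohomology of `Y` of degree `n`
with coefficients in `Ω` consists of the alternating `n`-forms on `Ω ⊗ H_1(X, ℚ)`, and
`C Y κ` is the set of the classes of algebraic cycles with rational coefficients (forms in the
variables `κ`). The properties of `C` which are used, all known, are

* `IsCycleSystem`: sums, cup products, pull-backs, push-forwards, rational degrees; Tate classes of
  degree two are linear combinations of classes of divisors (Tate); the rational Hodge classes of
  degree two of the lifting are classes of divisors (Lefschetz); the split Weil classes of the
  liftings in the dimensions four and six are algebraic (Markman);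
* `AreTate`: the classes are Tate classes;
* `AreCrystalline`: the classes are crystalline. For each class `z` on `Y` there are (`CrysHomology`)
  the fraction field `K₀` of the Witt vectors of a finite field (`WittField`), with its Frobenius
  automorphism `σ`, a vector space `V₀` over `K₀` (the first crystalline homology, dual to the first
  crystalline cohomology group) with its semilinear Frobenius `Φ`, which commutes with the
  endomorphisms in the fields `E i`, and the comparison isomorphism of `Ω ⊗ V₀` with
  `Ω ⊗ H_1(X, ℚ)`, such that `z` takes values in `K₀` on `V₀` and `σ (z (Φ v)) = p ^ m * z v`
  (`CrysForm.IsFixed`): the class of a cycle of codimension `m` defined over the finite field is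
  multiplied by `p ^ m` by the crystalline Frobenius endomorphism.

`HomEqNum`: each class in `C`, of any codimension `r`, which is numerically equivalent to zero
(`IsNumTrivial`: the degrees of its products with all classes in `C` of the complementary degree
vanish) is zero.

**The theorem.** Let `K` be an imaginary quadratic field in which `p` does not split, for instance the
field of the square root of `-p`. Let `Z` be an abelian variety such that each factor `i` satisfies
one of the following conditions (`IsGoodFactor`).

(1) It is supersingular.

(2) The CM field `E i` has at most one pair of different complex conjugate places above `p`
(`HasOnePair`), or the slopes of the factor are `m / g` and `1 - m / g`, where `g` is its dimension and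
`m` is prime to `g` (`HasTwoSlopes`); and, if there are several factors which are not supersingular,
some automorphism of `ℂ` conjugates one embedding of `E i` (which defines one of these two places)
and fixes the embeddings of the fields of the other factors (`IsFreeFactor`).

(3) `E i` contains `K`; and `E i = K`, or the automorphisms of `ℂ` are doubly transitive on the
embeddings of `E i` over the embedding `κ` of `K` and no power of `Z.π i` is in `K`, or the degree of
`E i` over `K` is a prime number and no power of `Z.π i` is in `K`, or in general all relations between
the eigenvalues of the factor `i` alone are defined over `K` (`IsOver`); and the automorphisms of `ℂ`
which fix the embeddings of the fields of the other factors are transitive on the embeddings of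
`E i` over `κ` (`IndepOver`; no condition if there is only one factor).

More generally, suppose only that the multiplicative relations between the local norms
`N_v(Z.π i) ∈ ℚ_p`, for all factors `i` and all places `v` of `E i` above `p`, that is, the relations
between the Frobenius eigenvalues whose exponents depend only on the places, are generated by
relations between at most two eigenvalues and by relations defined over `K`
(`HasQuadraticLocalRelations`).

Then for all abelian varieties `Y` which are isogenous, over an algebraic closure, to a product of
powers of the factors of `Z` and of a supersingular variety, crystalline homological equivalence and
numerical equivalence coincide on `Y`.

For instance, this holds for all powers of each abelian variety of dimension `g` whose Newton polygon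
has the slopes `m / g` and `1 - m / g`, with `m` prime to `g` (any `g`); if `g` is even the CM field
may contain an imaginary quadratic field, and then there are Weil classes of codimension `g / 2`.

**The proof.** Let a class `z ≠ 0` have a non-zero coefficient at a product `s` of eigenvectors of the
fields `E i` (the word `s` occurs). An automorphism `τ` of `Ω` over `ℚ_p` restricts to a power
`σ ^ (-n)` on `K₀`, and `τ ⊗ Φ ^ n` is a semilinear map of `Ω ⊗ V₀` which permutes the eigenlines and
multiplies `z` by a constant, so the words `g s` occur for all `g` in the whole decomposition group
at `p` (`galois_crys`), not only for those in the inertia group. The product of the `g s` is a word
whose exponents depend only on places; by hypothesis it can be transported by algebraic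
correspondences to a word which is stable under the automorphisms over `K`, and an element of the
decomposition group which is not the identity on `K` maps this word to its complex conjugate. So the
complex conjugate of the product of the `g s` occurs, and after division by the conjugates of the
`g s`, `g ≠ 1`, so does the complex conjugate of `s` (`conj_of_local`). Hence `z` is not numerically
trivial. For the factors of the kind (2) the relations between the local norms are trivial because of
the `p`-adic absolute values of the norms and of their images under one automorphism (`odd_zero`).
-/

set_option autoImplicit false

namespace Pool.Agent.Results.MP_f569db_ag.CrystallinePlaces

open NumberField Module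
open Pool.Agent.W495.TA Pool.Agent.TH117.PO Pool.Agent.TH117.BL Pool.Agent.U124.HL
  Pool.Agent.U124.HC

/-- **Crystalline homological equivalence and numerical equivalence coincide on products of powers of
abelian varieties over finite fields whose CM fields have only one pair of different conjugate places
above `p`, or whose slopes are `m / g` and `1 - m / g`, or whose relations are defined over an imaginary
quadratic field in which `p` does not split.** -/
theorem result {p : ℕ} [Fact p.Prime] {ν : PadicAlgCl p ≃+* ℂ} {K : Type} [Field K] [NumberField K]
    [IsCMField K] (hK : finrank ℚ K = 2) (hp : IsEmpty (K →+* ℚ_[p])) (κ : K →+* ℂ) (Z : RedAV p ν)
    (hZ : (∀ i, IsGoodFactor κ Z i) ∨ HasQuadraticLocalRelations κ Z)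
    {C : (Y : RedAV p ν) → (κ : Type) →
      ((TM (PadicAlgCl p) Y) [⋀^κ]→ₗ[PadicAlgCl p] PadicAlgCl p) → Prop}
    (hC : IsCycleSystem (PadicAlgCl p) C) (hT : AreTate (PadicAlgCl p) C)
    (hQ : AreCrystalline (PadicAlgCl p) C) (Y : RedAV p ν) (hY : IsPowersTimesSupersingular Z Y) :
    HomEqNum (PadicAlgCl p) C Y :=
  homEqNum_good hC hT hQ hK hp κ hZ hY

end Pool.Agent.Results.MP_f569db_ag.CrystallinePlaces
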