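import Pool.Agent.U231.FF.Geo

/-!
# Homological and numerical equivalence on products of all varieties with varieties of Fermat type

Let `κ` be a finite field with `q` elements, of characteristic `p`, and `k` its algebraic closure. Let
`H` be a Weil cohomology theory on a class of smooth proper varieties over `k`, with an algebraically
closed coefficient field, and `G` a class of varieties, closed under products, with an action of a group
`Γ` with the formal properties of a Galois action (the example: the varieties which are defined over `κ`,
and the Galois group of `κ`). Let `σ` be the (geometric) Frobenius.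

Let `X_i` be varieties in `G` **of Fermat type** of different prime degrees `N_i` and of lengths at most
`s_i` (`IsFermatType`): the cohomology of `X_i` is generated by the classes of algebraic cycles and a
subspace `T_i`, stable under `σ`, such that each eigenvalue of `σ` on `T_i` is, up to a root of unity and
a power of `q`, a product `∏_{a ∈ A} g(θ ^ a)` of at most `s_i` Gauss sums over `κ`, where `θ` is a
multiplicative character of `κ` of order `N_i`, and where the multiset `A + p A + ⋯ + p ^ (f - 1) A`, `f` the
order of `p` modulo `N_i`, is not symmetric, i.e. not invariant under `a ↦ -a`.

By the theorem of Weil the diagonal hypersurfaces `∑ c_j x_j ^ N = 0` of dimension `n` over `κ` and their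
powers and products are of this form with `s = n + 2` (for products: the sum of these numbers), if the
classes with symmetric `A + p A + ⋯` are algebraic. For `p ≡ 1` modulo `N` the condition on the multiset is
that `A` is not symmetric, and **the algebraicity for symmetric `A` is known** for `c_j = 1`, and in
general after a finite extension of `κ` (linear subspaces, Ran, Shioda and Katsura). Factors of the
Jacobians of Fermat curves are further examples.

Let `Z` be **any** variety in `G`, of any dimension, such that the eigenvalues `β` of `σ` on `H(Z)` are
algebraic numbers, and let `f_i` be the order of `p` modulo `N_i`. Suppose that for all `β` and all `i` there is an `m > 0` such that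

* the field `F = ℚ(β ^ m) ∩ ℚ(ζ_{N_i})`, `ζ_N` a root of unity of order `N`, is real (equivalently
  `(N_i - 1) / [F : ℚ]` is even); for instance `N_i` is odd and unramified in the field `ℚ(β ^ m)`;
* or `N_i > s_i f_i [F : ℚ] + 1`; or `N_i = 2`.

**So the theorem applies to all prime numbers `N_i` with finitely many exceptions, which depend only on
the fields `ℚ(β)`. For the other primes there is no condition at all on the `X_i`: they may be of any
dimension and products of any number of factors, and `s_i` and `f_i` are arbitrary.**

**Theorem.** Let `V` be the product of `Z` and of finitely many pairwise different `X_i`. Homological and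
numerical equivalence coincide on `V` (the conjecture `D(V)`) if and only if they coincide on `Z`. If `D_i`
and `E` are divisors on the `X_i` and on `Z` which satisfy the hard Lefschetz theorem, then the
conjecture `A` of Lefschetz type holds for `V` with the sum of their pull-backs if and only if it holds for
`(Z, E)`.

For `p ≡ 1` modulo the `N_i` nothing is assumed but the theorems of Weil and Deligne. No
standard conjecture, no case of the Tate conjecture and no semisimplicity of the Frobenius is assumed
for `Z`. There is no condition on `Z` as in `MP_f569db_ag.HyperplaneCoverings` (helper190: `Z` of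
level smaller than the dimensions of the `X_i`, or an irreducible cyclotomic polynomial), and the class of
the `X_i` is not the one of `MP_f569db_ag.LargePrimeCoverings` (helper222: cyclic coverings branched along
hyperplanes, where `H^{n,0}` is used): here all nonsymmetric characters occur.

The proof. Let `α_i` be eigenvalues of `σ` on the `T_i`, for `i` in a nonempty set `I`, and suppose that
`β ∏ α_i` is a power of `q` up to a root of unity. Let `τ` be an automorphism of the field of algebraic
numbers which fixes `β ^ m`. By the theorem of Stickelberger the `p`-adic valuation of the conjugates of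
the Gauss sums is given by the sawtooth function, and comparing the valuations of `β ∏ α_i` and its
conjugates one sees that the function `t ↦ ∑_{x ∈ A + p A + ⋯} saw(t x)` on `(ℤ/N_i)ˣ` is invariant under
the image of `τ` in `(ℤ/N_i)ˣ` (the different `i` are separated by an automorphism which is the identity on
`ℚ(ζ_{N_i})` and the complex conjugation on the other cyclotomic fields). These images form a subgroup
`H` of index `[ℚ(β ^ m) ∩ ℚ(ζ_{N_i}) : ℚ]`. The values `L(1, χ)` are not zero, so the sawtooth functions
`t ↦ saw(t x)` are independent up to the sign of `x`, and the odd part of the multiplicity function of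
`A + p A + ⋯` is invariant under `H` and not zero. So `-1` is not in `H` (the field is not real), and
the support of `A + p A + ⋯` contains a coset of `H`: at least `|H| = (N_i - 1) / [F : ℚ]` elements, but at
most `s_i f_i`. This contradicts the condition. So there are no such relations, the algebraic classes on
the product are combinations of products of algebraic classes on the `X_i` with algebraic classes on
`Z`, and the intersection form on the algebraic classes of the `X_i` is not degenerate.

helper231 (`Pool/Agent/U231/FF`, `U231/FT/Ari`); the geometric part is the library of helper876
(`N876/FL/Geo3`, definitions adapted from helper190's `U190/HC/Defs`), the norms of Gauss sums are from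
`Y145/DI/Stick` and `N214/HB/Gauss`, the nonvanishing of the Bernoulli numbers from `H916R2`.
-/

set_option autoImplicit false

universe u

namespace Pool.Agent.Results.MP_f569db_ag.FermatFactors

open Pool.Agent.H914 Pool.Agent.H281R3.HT Pool.Agent.TH125.Gal Pool.Agent.U231.FF

/-- The conjecture `D` holds for the product of `Z` and of the `X i`, `i ∈ L`, if and only if it holds
for `Z`. -/
def TransfersD {k : Type u} [Field k] {𝒱 : VarClass k} {ops : CycleOps 𝒱}
    {W : WeilCohomology.{u, 0} ops} {Γ : Type} [Group Γ] {ι : Type} (X : ι → GVar W Γ)
    (Z : GVar W Γ) (L : List ι) : Prop :=
  HomEqNum W (productOf X (fun _ => 0) ⟨Z.X, 0⟩ L).X ↔ HomEqNum W Z.X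

/-- For all divisors `D i` on the `X i` and `E` on `Z` with the hard Lefschetz theorem the conjecture
`A` holds for the product of `Z` and of the `X i`, `i ∈ L`, with the sum divisor, if and only if it
holds for `(Z, E)`. -/
def TransfersA {k : Type u} [Field k] {𝒱 : VarClass k} {ops : CycleOps 𝒱}
    {W : WeilCohomology.{u, 0} ops} {Γ : Type} [Group Γ] {ι : Type} (X : ι → GVar W Γ)
    (Z : GVar W Γ) (L : List ι) : Prop :=
  ∀ (D : ∀ i, (X i).X.Cycles) (E : Z.X.Cycles), (∀ i, (X i).X.IsCyc 1 (D i)) →
    (∀ i, HardLefschetz W (X i).X (D i)) → Z.X.IsCyc 1 E → HardLefschetz W Z.X E →
    (LefschetzA W (productOf X D ⟨Z.X, E⟩ L).X (productOf X D ⟨Z.X, E⟩ L).D ↔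
      LefschetzA W Z.X E)

/-- **The conjectures D and A for products of arbitrary varieties with varieties of Fermat type.** -/
theorem result (p : ℕ) [Fact p.Prime] (κ : Type) [Field κ] [Fintype κ] [CharP κ p] {ι : Type}
    (N s : ι → ℕ) {k : Type u} [Field k] {𝒱 : VarClass k} {ops : CycleOps 𝒱}
    (W : WeilCohomology.{u, 0} ops) [IsAlgClosed W.K] (τ : W.K →+* ℂ) {Γ : Type} [Group Γ]
    (χ : Γ →* W.Kˣ) (G : Set (GVar W Γ)) (X : ι → GVar W Γ) (Z : GVar W Γ) (σ : Γ)
    (h : IsFermatSystem κ p N s χ G X Z σ τ) :
    ∀ L : List ι, L.Nodup → TransfersD X Z L ∧ TransfersA X Z L := by
  obtain ⟨S, hS⟩ := exists_sys p κ N s h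
  refine fun L hL => ⟨?_, fun D E hD hHD hE hHE => ?_⟩
  · unfold TransfersD
    rw [productOf_eq]
    exact hS.homEqNum_tow (fun _ => 0) 0 hL
  · rw [productOf_eq]
    exact hS.lefschetzA_tow hD hHD hE hHE hL

end Pool.Agent.Results.MP_f569db_ag.FermatFactors
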