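import Pool.Agent.U190.AP.Bridge

/-!
# Conjecture D for varieties generated by products of varieties with irreducible cohomology

Let `k` be a field of any characteristic and `W` a Weil cohomology theory with any coefficient field
`K` of characteristic zero, on a class of smooth proper varieties over `k` closed under products (the
classes of closed points being normalised to degree one), and `𝒢` a set of symmetries of `W`:
automorphisms of all the graded algebras `H(X)`, compatible with the projections of products and with
the spaces of algebraic classes, which multiply the orientations by constants. The example is `ℓ`-adic
cohomology and the Galois group of a field `k₀` over which all varieties in the class are defined.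

Let `P` be a set of varieties `X`, each of which is of one of the following types.

* Graded type: `H(X)` is the sum of a space `A₀` spanned by algebraic classes and of its orthogonal
  complement `Q`; either `Q` is contained in the middle degree, or the Künneth projectors of `X` are
  combinations of algebraic correspondences; and for each degree `i` some correspondence `θ` (the
  identity for `i = dim X`, a power of a divisor class for `i < dim X`) defines a non-degenerate form
  `tr (x θ(y))` on `Q ∩ H^i(X)` which is good.
* Abelian type: the cohomology is that of an abelian variety with an addition and a divisor `D`,
  generated by `H^1`, with hard Lefschetz for `D`, and `H^1` is good for the form
  `tr (x D ^ (dim X - 1) y)`.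

A form on a space `P` (a part of the cohomology of `X`) is called good if

* `P` has no non-zero subspace which is stable under `𝒢` and the algebraic correspondences of degree
  zero and pairs trivially with its images under all correspondences (for example `P` is
  irreducible); or
* `P` is spanned by vanishing cycles: any two are conjugate up to sign under `𝒢`, and for each of
  them some element of `𝒢` acts on `P` by the formula of Picard and Lefschetz; or
* some `σ` in `𝒢`, a similitude with multiplier `q`, acts semisimply on `P`, and each eigenvalue `α` is
  conjugate over `K` to `q / α`; and the eigenvalues are simple, or all operators on `P` which commute
  with `σ` are combinations of algebraic correspondences (for the Frobenius endomorphism and `H^1` of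
  an abelian variety this is the theorem of Tate).

Examples for the members of `P`. (1) The geometric generic fibre of a Lefschetz pencil of hypersurface
sections of a variety with algebraic cohomology (projective spaces, Grassmannians, quadrics), over any
algebraically closed field of characteristic different from two: the vanishing cycles are conjugate and
the formula of Picard and Lefschetz holds (Deligne), for the Galois group of the function field of the
line. So `X` may be the generic hypersurface of any degree and dimension. (2) Over a finite field with
`q` elements: all abelian varieties (Tate), K3 surfaces (the theorem of Ito, Ito and Koshikawa for the
square), and all surfaces with simple Frobenius eigenvalues on `H^1` and on the transcendental part of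
`H^2`. The condition on the eigenvalues is that `α` and `q ^ i / α`, the complex conjugate of `α`, are
conjugate over `ℚ_ℓ`; for finitely many varieties it holds for a set of primes `ℓ` of positive density,
as in the theorem of Clozel for abelian varieties.

Let `𝒴` be any set of varieties. The members of `P` may have any dimensions and any relations with each
other and with the members of `𝒴`; nothing is assumed about their products.

**Theorem.** Homological and numerical equivalence coincide for all products of members of `𝒴` if and
only if they coincide for every variety `V` such that, for all `j ≤ dim V` (or only for
`2 j ≤ dim V`, if hard Lefschetz holds for some divisor on `V`), the space `H^(2 j)(V)` is spanned by the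
images of algebraic correspondences from products, with arbitrary repetitions, of members of `P` and
`𝒴`.

With `𝒴` empty this is conjecture D, unconditionally, for all these varieties `V`: all products of
members of `P`, all varieties dominated by such products, all smooth complete intersections of odd
dimension of ample divisors in them (by the hyperplane theorem of Lefschetz), all threefolds `V` for
which only `H^2(V)` is so generated, and so on. There is no condition on the odd cohomology of `V`.

## Proof

For members `X` of `P` conjecture D follows from the conditions: the combinations of algebraic classes
in the transcendental cohomology form a stable subspace on which all correspondences pair trivially
(`U190/AN/Hom`). The conditions imply that `X` is of anisotropic type: for a semisimple similitude with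
eigenvalues `α` conjugate to `q / α`, a stable subspace contains the kernel of an irreducible polynomial
(because the eigenvalues are simple, or by the theorem of Tate), and this kernel is not isotropic
(`U190/AP/Spec`); a stable subspace which contains an element not orthogonal to a vanishing cycle
contains it, hence all of them (`U190/AP/Bridge`). For the products of members of `P` and `𝒴` the theorem
is that of the starting library `R908` (`KnH`, `KnI`, `KoC`, not handed in before): if D fails for a
product, the numerically trivial classes give multilinear forms on the transcendental cohomology of one
of the factors which are driven to zero by a one-parameter subgroup (Hilbert and Mumford), the optimal
one (Kempf) defines a canonical filtration, which is rational over `K` and stable under correspondences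
and symmetries, and its first step is isotropic. Here the two kinds of members (of graded and of abelian
type) are combined. Finally, let `z` be a numerically trivial cycle on `V` of codimension `q`. For a
correspondence `φ` from such a product `Z` to `V`, the transpose of `φ` maps the class of `z` to a
combination of classes on `Z` which is numerically trivial, hence zero; so the class of `z` is orthogonal
to the images of all `φ`, which span `H^(2 (dim V - q))(V)` (`U190/AN/Main`).
-/

set_option autoImplicit false

universe u v

namespace Pool.Agent.Results.MP_f569db_ag.IrreducibleGenerators

open Pool.Agent.H914 Pool.Agent.U190.AP

/-- **Conjecture D for varieties whose even cohomology is generated by products of varieties with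
irreducible primitive cohomology, and others.** -/
theorem result {k : Type u} [Field k] {𝒱 : VarClass k} {ops : CycleOps 𝒱}
    (W : WeilCohomology.{u, v} ops) (𝒢 : Set (Symmetry W)) (P 𝒴 : Set 𝒱.Obj)
    (hP : ∀ X ∈ P, IsBasic 𝒢 X) :
    (∀ Y, IsProductOf 𝒴 Y → HomEqNum W Y) ↔
      ∀ V, ((∀ j ≤ V.dim, Generated W P 𝒴 V (2 * j)) ∨
        ∃ D, V.IsCyc 1 D ∧ HardLefschetz W V D ∧
          ∀ j, 2 * j ≤ V.dim → Generated W P 𝒴 V (2 * j)) → HomEqNum W V := by
  simp only [generated_iff]
  exact U190.AN.homEqNum_iff (syms 𝒢) (fun X hX => Or.inr (Or.inr (hP X hX).block.type))

end Pool.Agent.Results.MP_f569db_ag.IrreducibleGenerators
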