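import Pool.Agent.Y133.Half.Index

/-!
# MP_f569db_ag: the zero-one law for the conjecture D on the powers of a variety

Let `X` be an arbitrary smooth projective variety over an algebraically closed field of arbitrary
characteristic, and `W` any Weil cohomology theory with coefficients in a field `K` of characteristic
zero. Let `a n` be the dimension of the `K`-linear span of the classes of the algebraic cycles of all
codimensions in the cohomology of `X ^ (n + 1)`, and let `r n` be the rank of the group of the cycles of
all codimensions on `X ^ (n + 1)` modulo numerical equivalence. Then `r n ≤ a n`.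

**Theorem.** Either

* the conjecture D holds for all powers of `X`, and `r n = a n` for all `n`; or
* `r n / a n` converges to `0` for `n → ∞`.

So the numerically trivial classes make up a proportion of all the algebraic classes (with
coefficients in `K`) which is zero for all `n`, or converges to one: a single class on a single power
`X ^ m` which is numerically but not homologically equivalent to zero implies that, for `n → ∞`, one
hundred percent of the algebraic classes on `X ^ n` are numerically trivial. In particular the conjecture
D holds for all powers of `X` as soon as `a n ≤ C r n` for infinitely many `n` and one constant `C`,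
however large (second part of the statement).

Nothing is assumed about `X` and `W`: no hard Lefschetz theorem, no other standard conjecture, no sign
conjecture.

The proof. If `c` is a numerically trivial combination of classes of cycles on `X ^ m`, which is not zero,
then the numerically trivial correspondences given by the exterior powers of `c` generate, under the
algebra of algebraic correspondences, more and more independent subspaces of the same size as the space
of cycles modulo numerical equivalence; here the growth of `r n` is compared with the growth of `b ^ n`.
The proof is in `Pool.Agent.Y133.Half` and `Pool.Agent.Y129` (starting files).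

The setting is that of the starting files: `𝒱`, `ops` is a class of varieties with algebraic cycles,
`W` a Weil cohomology theory on it, `pw X n` the product of `n + 1` copies of `X`.
-/

set_option autoImplicit false

open CategoryTheory AlgebraicGeometry Filter Topology

universe u v

namespace Pool.Agent.Results.MP_f569db_ag.ZeroOneLaw

open Pool.Agent.H914 Pool.Agent.H914.VarClass Pool.Agent.H914.VarClass.Obj
  Pool.Agent.H914.WeilCohomology Pool.Agent.Y133.Half Pool.Agent.H281R3.HT

variable {k : Type u} [Field k] {𝒱 : VarClass k} {ops : CycleOps 𝒱}

/-- **The zero-one law for homological and numerical equivalence.** -/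
theorem result (W : WeilCohomology.{u, v} ops) (X : 𝒱.Obj) [Nontrivial (W.H X)] :
    (((∀ n, HomEqNum W (pw X n)) ∧ ∀ n, cycRank ops (pw X n) = algDim W (pw X n)) ∨
      Tendsto (fun n => (cycRank ops (pw X n) : ℝ) / algDim W (pw X n)) atTop (𝓝 0)) ∧
    ((∃ C : ℝ, ∀ n₀ : ℕ, ∃ n ≥ n₀, (algDim W (pw X n) : ℝ) ≤ C * cycRank ops (pw X n)) →
      ∀ n, HomEqNum W (pw X n)) := by
  have hlaw := d_law W X
  refine ⟨?_, ?_⟩
  · rcases hlaw with h | h
    · exact Or.inl ⟨h, fun n => by rw [algDim_eq]; exact (homEqNum_iff' _).1 (h n)⟩
    · exact Or.inr h
  · rintro ⟨C, hC⟩
    rcases hlaw with h | h
    · exact h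
    · exfalso
      rw [Metric.tendsto_atTop] at h
      have hC1 : (0 : ℝ) < |C| + 1 := by positivity
      obtain ⟨n₀, hn₀⟩ := h (1 / (|C| + 1)) (by positivity)
      obtain ⟨n, hn, hle⟩ := hC n₀
      have h1 := hn₀ n hn
      have hr : (0 : ℝ) ≤ cycRank ops (pw X n) := Nat.cast_nonneg _
      have hpos : 0 < algDim W (pw X n) := by
        rw [algDim_eq]
        have h2 : 0 < Module.finrank W.K ((algSys W).C (pw X n)) := by
          have h3 : Nontrivial (W.H (pw X n)) := by
            apply Module.nontrivial_of_finrank_pos (R := W.K)
            rw [finrank_pw]
            exact pow_pos Module.finrank_pos _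
          rw [Module.finrank_pos_iff]
          exact ⟨⟨⟨1, (algSys W).one (pw X n)⟩, 0, fun h => one_ne_zero (congrArg Subtype.val h)⟩⟩
        exact h2
      have hpos' : (0 : ℝ) < algDim W (pw X n) := by exact_mod_cast hpos
      rw [Real.dist_eq, sub_zero, abs_of_nonneg (div_nonneg hr hpos'.le), div_lt_div_iff₀ hpos' hC1,
        one_mul] at h1
      have h4 : C * cycRank ops (pw X n) ≤ |C| * cycRank ops (pw X n) :=
        mul_le_mul_of_nonneg_right (le_abs_self C) hr
      nlinarith

end Pool.Agent.Results.MP_f569db_ag.ZeroOneLaw
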